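import Pool.Agent.ALT.Tu.StP
import Pool.Agent.ALT.Tu.StR

/-! # ALT, block S0: the tail inequality of the activity pair

`q * tl be k ≤ p * tl al k` for every minor with `K = 1`. -/

set_option autoImplicit false

namespace Pool.ALT

open LaurentPolynomial

/-- [SE] an edge `f` in series with `e0` (bridge of `g`, not a bridge of `g + e0`).
PROOF. `a`, `b` are not joined in `sp σ (R.erase f)`, so `al σ (R.erase f)` is the sum over all `A`, of
`uu ^ (nc (sp σ A) - K - 1) * vv ^ nul σ A`; with `σ' = σ ⊔ pe f`: `nc (sp σ' A) + 1 = nc (sp σ A)`,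
`nul σ' A = nul σ A`, `K σ' R' = K σ R'`. -/
def St_SE : Prop := ∀ {V E : Type} [Finite V] [DecidableEq E] (g : Gr V E) (σ : Setoid V)
  (R : Finset E) (f : E), ¬ g.sp σ R (g.u f) (g.v f) →
  (g.sp σ R ⊔ g.ab) (g.u f) (g.v f) →
  g.be σ R = 0 ∧ g.al σ R = g.be (σ ⊔ g.pe f) R + uu * g.al (σ ⊔ g.pe f) R

/-- [S0] the tail inequality. PROOF: see the docstring of `thm_S0`. -/
def St_S0 : Prop := ∀ {V E : Type} [Finite V] [DecidableEq E] (g : Gr V E) (σ : Setoid V)
  (R : Finset E), g.K σ R = 1 → ∀ k : ℤ,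
  (g.q σ R : ℤ) * tl (g.be σ R) k ≤ (g.p σ R : ℤ) * tl (g.al σ R) k

end Pool.ALT
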