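import Pool.Agent.ALT.S0.Defs

/-! # ALT, block S0, module SE -/

set_option autoImplicit false

namespace Pool.ALT

open LaurentPolynomial

theorem thm_SE : St_SE := by
  classical
  intro V E _ _ g σ R f h1 h2
  have hab : ¬ g.sp σ R g.a g.b := by
    intro h
    have h3 : g.sp σ R ⊔ g.ab = g.sp σ R := sup_pr_of _ h
    rw [h3] at h2
    exact h1 h2
  have hσ : ¬ σ (g.u f) (g.v f) := fun h => h1 (g.le_sp σ R h)
  have hnc : nc (σ ⊔ g.pe f) + 1 = nc σ := nc_sup_pr hσ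
  have hK : g.K (σ ⊔ g.pe f) R = g.K σ R := by
    unfold Gr.K
    have h4 : g.sp (σ ⊔ g.pe f) R ⊔ g.ab = (g.sp σ R ⊔ g.ab) ⊔ g.pe f := by
      rw [g.sp_sup, sup_assoc, sup_comm (g.pe f), ← sup_assoc]
    rw [h4]
    have h5 : (g.sp σ R ⊔ g.ab) ⊔ g.pe f = g.sp σ R ⊔ g.ab := sup_pr_of _ h2
    rw [h5]
  have key : ∀ A ∈ R.powerset, ¬ g.sp σ A g.a g.b ∧
      nc (g.sp σ A) = nc (g.sp (σ ⊔ g.pe f) A) + 1 ∧
      g.nul σ A = g.nul (σ ⊔ g.pe f) A ∧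
      g.K σ R ≤ nc (g.sp (σ ⊔ g.pe f) A) ∧
      (¬ g.sp (σ ⊔ g.pe f) A g.a g.b → g.K σ R + 1 ≤ nc (g.sp (σ ⊔ g.pe f) A)) := by
    intro A hA
    rw [Finset.mem_powerset] at hA
    have hle : g.sp σ A ≤ g.sp σ R := g.sp_mono le_rfl hA
    have h3 : nc (g.sp (σ ⊔ g.pe f) A) + 1 = nc (g.sp σ A) := by
      rw [g.sp_sup]
      exact nc_sup_pr fun h => h1 (hle h)
    have h4 : g.sp (σ ⊔ g.pe f) A ⊔ g.ab ≤ g.sp (σ ⊔ g.pe f) R ⊔ g.ab :=
      sup_le_sup_right (g.sp_mono le_rfl hA) _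
    have h5 : g.K σ R ≤ nc (g.sp (σ ⊔ g.pe f) A ⊔ g.ab) := by
      rw [← hK]
      exact nc_anti h4
    refine ⟨fun h => hab (hle h), h3.symm, ?_, h5.trans (nc_anti le_sup_left), fun h => ?_⟩
    · unfold Gr.nul
      omega
    · have h6 : nc (g.sp (σ ⊔ g.pe f) A ⊔ g.ab) + 1 = nc (g.sp (σ ⊔ g.pe f) A) := nc_sup_pr h
      omega
  constructor
  · unfold Gr.be
    rw [Finset.sum_filter]
    exact Finset.sum_eq_zero fun A hA => if_neg (key A hA).1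
  · unfold Gr.al Gr.be
    rw [Finset.sum_filter, Finset.sum_filter, Finset.sum_filter, Finset.mul_sum,
      ← Finset.sum_add_distrib, hK]
    refine Finset.sum_congr rfl fun A hA => ?_
    obtain ⟨k1, k2, k3, k4, k5⟩ := key A hA
    rw [if_pos k1, k2, k3]
    by_cases h : g.sp (σ ⊔ g.pe f) A g.a g.b
    · have h9 : nc (g.sp (σ ⊔ g.pe f) A) + 1 - g.K σ R - 1 =
          nc (g.sp (σ ⊔ g.pe f) A) - g.K σ R := by omega
      rw [if_pos h, if_neg (not_not_intro h), h9]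
      ring
    · have h8 := k5 h
      have h9 : nc (g.sp (σ ⊔ g.pe f) A) + 1 - g.K σ R - 1 =
          (nc (g.sp (σ ⊔ g.pe f) A) - g.K σ R - 1) + 1 := by omega
      rw [if_neg h, if_pos h, h9, pow_succ]
      ring

end Pool.ALT
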