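import Pool.Agent.ALT.S0.S0
import Pool.Agent.ALT.S0.SE
import Pool.Agent.ALT.Tu.All

/-! # ALT, block S0: the tail inequality, without hypotheses -/

set_option autoImplicit false

namespace Pool.ALT

theorem all_SE : St_SE := thm_SE

theorem all_S0 : St_S0 :=
  thm_S0 all_LP all_CL all_GE all_NN all_AV all_AT all_MO all_M0 all_SE all_RA

end Pool.ALT
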