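import Pool.Agent.ALT.S0.Tl

/-! # ALT, block S0: the tail inequality -/

set_option autoImplicit false

namespace Pool.ALT

open LaurentPolynomial

/-- existence of a spanning forest -/
theorem S0_forest {V E : Type} [Finite V] [DecidableEq E] (g : Gr V E) (σ : Setoid V)
    (R : Finset E) : ∃ A ⊆ R, g.sp σ A = g.sp σ R ∧ A.card + nc (g.sp σ A) = nc σ := by
  induction R using Finset.induction_on with
  | empty =>
    refine ⟨∅, subset_rfl, rfl, ?_⟩
    rw [g.sp_empty, Finset.card_empty, zero_add]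
  | insert e R he ih =>
    obtain ⟨A, hA, h1, h2⟩ := ih
    by_cases h : g.sp σ R (g.u e) (g.v e)
    · refine ⟨A, hA.trans (Finset.subset_insert _ _), ?_, h2⟩
      rw [h1, Gr.sp_insert_of g h]
    · refine ⟨insert e A, Finset.insert_subset_insert _ hA, ?_, ?_⟩
      · rw [g.sp_insert, g.sp_insert, h1]
      · have h3 : e ∉ A := fun h4 => he (hA h4)
        rw [Finset.card_insert_of_notMem h3]
        have h5 : nc (g.sp σ (insert e A)) + 1 = nc (g.sp σ A) := by
          apply Gr.nc_sp_insert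
          rw [h1]
          exact h
        omega

/-- the arithmetic of the averaging step -/
theorem S0_arith {p0 p1 q0 q1 A0 A1 B0 B1 : ℤ} (hp0 : 0 < p0) (hp1 : 0 < p1)
    (i0 : q0 * B0 ≤ p0 * A0) (i1 : q1 * B1 ≤ p1 * A1)
    (hch : B1 * (p0 + p1) ≤ p1 * (B0 + B1)) (hra : (p0 + p1) * q1 ≤ p1 * (q0 + q1)) :
    (q0 + q1) * (B0 + B1) ≤ (p0 + p1) * (A0 + A1) := by
  have h1 : 0 ≤ (p1 * q0 - p0 * q1) * (p1 * B0 - p0 * B1) := by
    apply mul_nonneg
    · linarith
    · linarith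
  have h2 : p1 * (p0 + p1) * (q0 * B0) ≤ p1 * (p0 + p1) * (p0 * A0) :=
    mul_le_mul_of_nonneg_left i0 (by positivity)
  have h3 : p0 * (p0 + p1) * (q1 * B1) ≤ p0 * (p0 + p1) * (p1 * A1) :=
    mul_le_mul_of_nonneg_left i1 (by positivity)
  have h4 : p0 * p1 * ((q0 + q1) * (B0 + B1)) ≤ p0 * p1 * ((p0 + p1) * (A0 + A1)) := by
    linarith
  exact le_of_mul_le_mul_left h4 (by positivity)

/-- [S0] the tail inequality.
PROOF. Induction on `R.card`. Loops and coloops shift both tails. Otherwise, if `p, q > 0`, by [AV] and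
[AT] there is an edge `f` with `p * tl be₁ k ≤ p₁ * tl be k` (index 1: `f` contracted, index 0: `f`
deleted). If `f` is a bridge of `g`, use [SE]; if not, `p₀ > 0`, and with `D = p₁ q₀ - p₀ q₁ ≥ 0` ([RA]),
`p₀ p₁ (p tl al k - q tl be k) ≥ D (p₁ tl be₀ k - p₀ tl be₁ k) ≥ 0`. -/
theorem thm_S0 (hLP : St_LP) (hCL : St_CL) (hGE : St_GE) (hNN : St_NN) (hAV : St_AV)
    (hAT : St_AT) (hMO : St_MO) (hM0 : St_M0) (hSE : St_SE) (hRA : St_RA) : St_S0 := by
  classical
  intro V E _ _ g σ R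
  induction hn : R.card using Nat.strong_induction_on generalizing σ R with
  | _ n ih =>
    intro hK k
    have ihR : ∀ (τ : Setoid V) (S : Finset E), S.card < R.card → g.K τ S = 1 → ∀ l : ℤ,
        (g.q τ S : ℤ) * tl (g.be τ S) l ≤ (g.p τ S : ℤ) * tl (g.al τ S) l := by
      intro τ S hS h1 l
      exact ih S.card (by omega) τ S rfl h1 l
    have nb := (hNN g σ R).1
    have na := (hNN g σ R).2
    have mb := (hM0 g σ R).1
    have ma := (hM0 g σ R).2
    -- loops
    by_cases hl : ∃ f ∈ R, σ (g.u f) (g.v f)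
    · obtain ⟨f, hf, hj⟩ := hl
      obtain ⟨e1, e2⟩ := hLP g σ R f hf hj
      have hs : g.sp σ R = g.sp σ (R.erase f) := by
        rw [← Gr.sp_insert_of g (g.le_sp σ (R.erase f) hj), Finset.insert_erase hf]
      have hK' : g.K σ (R.erase f) = 1 := by
        rw [← hK]
        unfold Gr.K
        rw [hs]
      have h1 := ihR σ (R.erase f) (Finset.card_erase_lt_of_mem hf) hK' (k - (-1))
      have hp : (g.p σ R : ℤ) = g.p σ (R.erase f) := by
        rw [← mb, ← (hM0 g σ (R.erase f)).1, e1, S0_mo_T hMO]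
      have hq : (g.q σ R : ℤ) = g.q σ (R.erase f) := by
        rw [← ma, ← (hM0 g σ (R.erase f)).2, e2, S0_mo_T hMO]
      rw [e1, e2, S0_tl_T, S0_tl_T, hp, hq]
      exact h1
    push Not at hl
    -- coloops
    by_cases hc : ∃ f ∈ R, ¬ (g.sp σ (R.erase f) ⊔ g.ab) (g.u f) (g.v f)
    · obtain ⟨f, hf, hj⟩ := hc
      obtain ⟨e1, e2⟩ := hCL g σ R f hf hj
      have hK' : g.K (σ ⊔ g.pe f) (R.erase f) = 1 := by
        rw [← hK]
        unfold Gr.K
        rw [← g.sp_insert', Finset.insert_erase hf]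
      have h1 := ihR (σ ⊔ g.pe f) (R.erase f) (Finset.card_erase_lt_of_mem hf) hK' (k - 1)
      have hp : (g.p σ R : ℤ) = g.p (σ ⊔ g.pe f) (R.erase f) := by
        rw [← mb, ← (hM0 g (σ ⊔ g.pe f) (R.erase f)).1, e1, S0_mo_T hMO]
      have hq : (g.q σ R : ℤ) = g.q (σ ⊔ g.pe f) (R.erase f) := by
        rw [← ma, ← (hM0 g (σ ⊔ g.pe f) (R.erase f)).2, e2, S0_mo_T hMO]
      rw [e1, e2, S0_tl_T, S0_tl_T, hp, hq]
      exact h1
    push Not at hc
    have tb := S0_tl_nonneg nb k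
    have ta := S0_tl_nonneg na k
    have tb' := S0_tl_le nb k
    rcases Nat.eq_zero_or_pos (g.p σ R) with hp | hp
    · rw [mb, hp, Nat.cast_zero] at tb'
      have h0 : tl (g.be σ R) k = 0 := le_antisymm tb' tb
      rw [h0, hp, Nat.cast_zero, zero_mul, mul_zero]
    rcases Nat.eq_zero_or_pos (g.q σ R) with hq | hq
    · rw [hq, Nat.cast_zero, zero_mul]
      exact mul_nonneg (Int.natCast_nonneg _) ta
    -- a spanning tree
    have hsp : nc (g.sp σ R) = g.K σ R := by
      unfold Gr.p at hp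
      obtain ⟨A, hA⟩ := Finset.card_pos.1 hp
      rw [Finset.mem_filter, Finset.mem_powerset] at hA
      apply le_antisymm
      · rw [← hA.2.1]
        exact nc_anti (g.sp_mono le_rfl hA.1)
      · exact nc_anti le_sup_left
    by_cases hR : R = ∅
    · exfalso
      subst hR
      have h1 : g.al σ ∅ = 0 ∨ g.be σ ∅ = 0 := by
        have h2 : g.sp σ ∅ = σ := g.sp_empty σ
        by_cases hab : σ g.a g.b
        · left
          unfold Gr.al
          rw [Finset.powerset_empty, Finset.filter_singleton, if_neg, Finset.sum_empty]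
          rw [h2]
          exact not_not_intro hab
        · right
          unfold Gr.be
          rw [Finset.powerset_empty, Finset.filter_singleton, if_neg, Finset.sum_empty]
          rw [h2]
          exact hab
      have h3 : mo 0 (0 : LaurentPolynomial ℤ) = 0 := by
        have h4 := S0_tl_zero 0
        have h5 := hMO.1 0 0 0
        rw [add_zero] at h5
        linarith
      rcases h1 with h1 | h1
      · rw [h1, h3] at ma
        omega
      · rw [h1, h3] at mb
        omega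
    -- the choice of f
    have hne : (R.filter fun f => ¬ σ (g.u f) (g.v f)).Nonempty := by
      obtain ⟨f, hf⟩ := Finset.nonempty_iff_ne_empty.2 hR
      exact ⟨f, Finset.mem_filter.2 ⟨hf, hl f hf⟩⟩
    have hsum : ∑ f ∈ R with ¬ σ (g.u f) (g.v f),
        (g.p σ R : ℤ) * tl (g.be (σ ⊔ g.pe f) (R.erase f)) k ≤
        ∑ f ∈ R with ¬ σ (g.u f) (g.v f),
        (g.p (σ ⊔ g.pe f) (R.erase f) : ℤ) * tl (g.be σ R) k := by
      rw [← Finset.mul_sum, ← Finset.sum_mul]
      have h1 := hAV g σ R k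
      have h2 := hAT g σ R
      have h3 : ∑ f ∈ R with ¬ σ (g.u f) (g.v f), (g.p (σ ⊔ g.pe f) (R.erase f) : ℤ) =
          (g.rk σ R : ℤ) * g.p σ R := by
        rw [← Nat.cast_sum, h2]
        push_cast
        ring
      rw [h3]
      have h4 : (g.p σ R : ℤ) * ∑ f ∈ R with ¬ σ (g.u f) (g.v f),
          tl (g.be (σ ⊔ g.pe f) (R.erase f)) k ≤ (g.p σ R : ℤ) * (g.rk σ R * tl (g.be σ R) k) :=
        mul_le_mul_of_nonneg_left h1 (Int.natCast_nonneg _)
      linarith
    obtain ⟨f, hf', hch⟩ := Finset.exists_le_of_sum_le hne hsum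
    have hf : f ∈ R := (Finset.mem_filter.1 hf').1
    have hfl : ¬ σ (g.u f) (g.v f) := (Finset.mem_filter.1 hf').2
    have hfc := hc f hf
    obtain ⟨e1, e2⟩ := hGE g σ R f hf hfl hfc
    have hK1 : g.K (σ ⊔ g.pe f) (R.erase f) = g.K σ R := by
      unfold Gr.K
      rw [← g.sp_insert', Finset.insert_erase hf]
    have hK0 : g.K σ (R.erase f) = g.K σ R := by
      unfold Gr.K
      have h1 : g.sp σ R ⊔ g.ab = (g.sp σ (R.erase f) ⊔ g.ab) ⊔ g.pe f := by
        rw [sup_assoc, sup_comm g.ab, ← sup_assoc, ← g.sp_insert, Finset.insert_erase hf]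
      rw [h1]
      have h2 : (g.sp σ (R.erase f) ⊔ g.ab) ⊔ g.pe f = g.sp σ (R.erase f) ⊔ g.ab :=
        sup_pr_of _ hfc
      rw [h2]
    have i0 := ihR σ (R.erase f) (Finset.card_erase_lt_of_mem hf) (hK0.trans hK) k
    have i1 := ihR (σ ⊔ g.pe f) (R.erase f) (Finset.card_erase_lt_of_mem hf) (hK1.trans hK) k
    have hp' : (g.p σ R : ℤ) = g.p σ (R.erase f) + g.p (σ ⊔ g.pe f) (R.erase f) := by
      rw [← mb, ← (hM0 g σ (R.erase f)).1, ← (hM0 g (σ ⊔ g.pe f) (R.erase f)).1, e1, hMO.1]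
    have hq' : (g.q σ R : ℤ) = g.q σ (R.erase f) + g.q (σ ⊔ g.pe f) (R.erase f) := by
      rw [← ma, ← (hM0 g σ (R.erase f)).2, ← (hM0 g (σ ⊔ g.pe f) (R.erase f)).2, e2, hMO.1]
    have hra := hRA g σ R f hK hf hfl
    have hra' : (g.p σ R : ℤ) * g.q (σ ⊔ g.pe f) (R.erase f) ≤
        g.p (σ ⊔ g.pe f) (R.erase f) * g.q σ R := by
      exact_mod_cast hra
    -- p₁ > 0
    have hp1 : 0 < g.p (σ ⊔ g.pe f) (R.erase f) := by
      obtain ⟨A, hA, h1, h2⟩ := S0_forest g (σ ⊔ g.pe f) (R.erase f)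
      unfold Gr.p
      refine Finset.card_pos.2 ⟨A, ?_⟩
      rw [Finset.mem_filter, Finset.mem_powerset]
      refine ⟨hA, ?_, h2⟩
      rw [h1, hK1, ← hsp, ← g.sp_insert', Finset.insert_erase hf]
    by_cases hs : g.sp σ (R.erase f) (g.u f) (g.v f)
    · -- p₀ > 0
      have hp0 : 0 < g.p σ (R.erase f) := by
        obtain ⟨A, hA, h1, h2⟩ := S0_forest g σ (R.erase f)
        unfold Gr.p
        refine Finset.card_pos.2 ⟨A, ?_⟩
        rw [Finset.mem_filter, Finset.mem_powerset]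
        refine ⟨hA, ?_, h2⟩
        rw [h1, hK0, ← hsp, ← Gr.sp_insert_of g hs, Finset.insert_erase hf]
      rw [e1, e2, S0_tl_add, S0_tl_add, hp', hq']
      rw [e1, S0_tl_add, hp'] at hch
      rw [hp', hq'] at hra'
      refine S0_arith (by exact_mod_cast hp0) (by exact_mod_cast hp1) i0 i1 ?_ hra'
      linarith
    · obtain ⟨s1, s2⟩ := hSE g σ (R.erase f) f hs hfc
      have h1 : (g.p σ (R.erase f) : ℤ) = 0 := by
        rw [← (hM0 g σ (R.erase f)).1, s1]
        have h5 := hMO.1 0 0 0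
        rw [add_zero] at h5
        linarith
      have h2 : (g.q σ (R.erase f) : ℤ) = g.p (σ ⊔ g.pe f) (R.erase f) := by
        rw [← (hM0 g σ (R.erase f)).2, s2, hMO.1, S0_mo_uu hMO, (hM0 g _ _).1, add_zero]
      rw [e1, e2, hp', hq', s1, s2, zero_add, S0_tl_add, S0_tl_add, h1, h2, zero_add]
      have h3 := S0_tl_uu (g.al (σ ⊔ g.pe f) (R.erase f)) k
      have h4 := S0_tl_anti (hNN g (σ ⊔ g.pe f) (R.erase f)).2 (show k - 1 ≤ k by omega)
      have h5 : 0 ≤ (g.p (σ ⊔ g.pe f) (R.erase f) : ℤ) *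
          tl (uu * g.al (σ ⊔ g.pe f) (R.erase f)) k :=
        mul_nonneg (Int.natCast_nonneg _) (by linarith)
      linarith

end Pool.ALT
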