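import Pool.Agent.ALT.S0.Defs

/-! # ALT, block S0: lemmas on tails -/

set_option autoImplicit false

namespace Pool.ALT

open LaurentPolynomial

theorem S0_coeff_T (n : ℤ) (P : LaurentPolynomial ℤ) (j : ℤ) :
    (T n * P).coeff j = P.coeff (j - n) := by
  rw [show (T n : LaurentPolynomial ℤ) = AddMonoidAlgebra.single n 1 from rfl,
    AddMonoidAlgebra.coeff_single_mul_eq_mul_coeff (j - n), one_mul]
  intro m _
  constructor <;> intro h <;> omega

theorem S0_tl_fin (P : LaurentPolynomial ℤ) (k : ℤ) :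
    tl P k = ∑ᶠ j : ℤ, (if k ≤ j then P.coeff j else 0) := by
  unfold tl
  rw [Finset.sum_filter]
  refine (finsum_eq_sum_of_support_subset _ ?_).symm
  intro j hj
  rw [Function.mem_support] at hj
  have h1 : P.coeff j ≠ 0 := by
    intro h
    apply hj
    rw [h]
    split_ifs <;> rfl
  exact Finset.mem_coe.2 (Finsupp.mem_support_iff.2 h1)

theorem S0_tl_T (n : ℤ) (P : LaurentPolynomial ℤ) (k : ℤ) : tl (T n * P) k = tl P (k - n) := by
  rw [S0_tl_fin, S0_tl_fin, ← finsum_comp_equiv (Equiv.addRight n)]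
  refine finsum_congr fun j => ?_
  rw [S0_coeff_T, Equiv.coe_addRight, add_sub_cancel_right]
  beta_reduce
  by_cases h : k - n ≤ j
  · rw [if_pos h, if_pos (by omega)]
  · rw [if_neg h, if_neg (by omega)]

theorem S0_tl_add (P Q : LaurentPolynomial ℤ) (k : ℤ) : tl (P + Q) k = tl P k + tl Q k := by
  rw [S0_tl_fin, S0_tl_fin, S0_tl_fin]
  have hfin : ∀ P : LaurentPolynomial ℤ,
      (Function.support fun j : ℤ => (if k ≤ j then P.coeff j else 0)).Finite := by
    intro P
    refine (Finset.finite_toSet P.coeff.support).subset fun j hj => ?_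
    rw [Function.mem_support] at hj
    have h1 : P.coeff j ≠ 0 := by
      intro h
      apply hj
      rw [h]
      split_ifs <;> rfl
    exact Finset.mem_coe.2 (Finsupp.mem_support_iff.2 h1)
  rw [← finsum_add_distrib (hfin P) (hfin Q)]
  refine finsum_congr fun j => ?_
  rw [AddMonoidAlgebra.coeff_add, Finsupp.add_apply]
  split_ifs
  · rfl
  · rfl

theorem S0_tl_zero (k : ℤ) : tl 0 k = 0 := by
  rw [S0_tl_fin]
  rw [AddMonoidAlgebra.coeff_zero]
  have : (fun j : ℤ => (if k ≤ j then (0 : ℤ →₀ ℤ) j else 0)) = fun _ => 0 := by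
    funext j
    rw [Finsupp.zero_apply]
    split_ifs <;> rfl
  rw [this, finsum_zero]

theorem S0_tl_nonneg {P : LaurentPolynomial ℤ} (h : NN P) (k : ℤ) : 0 ≤ tl P k :=
  Finset.sum_nonneg fun j _ => h j

theorem S0_tl_le {P : LaurentPolynomial ℤ} (h : NN P) (k : ℤ) : tl P k ≤ mo 0 P := by
  unfold tl mo
  rw [Finset.sum_filter]
  refine Finset.sum_le_sum fun j _ => ?_
  rw [pow_zero, one_mul]
  split_ifs
  · exact le_rfl
  · exact h j

theorem S0_tl_anti {P : LaurentPolynomial ℤ} (h : NN P) {k l : ℤ} (hkl : k ≤ l) :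
    tl P l ≤ tl P k := by
  unfold tl
  refine Finset.sum_le_sum_of_subset_of_nonneg ?_ fun j _ _ => h j
  intro j hj
  rw [Finset.mem_filter] at hj ⊢
  exact ⟨hj.1, hkl.trans hj.2⟩

theorem S0_mo_T (hMO : St_MO) (n : ℤ) (P : LaurentPolynomial ℤ) : mo 0 (T n * P) = mo 0 P := by
  rw [(hMO.2.2 (T n) P).1]
  have h := hMO.2.1 0 1 n
  rw [map_one, one_mul, pow_zero, one_mul] at h
  rw [h, one_mul]

theorem S0_tl_uu (P : LaurentPolynomial ℤ) (k : ℤ) : tl (uu * P) k + tl P k = tl P (k - 1) := by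
  rw [← S0_tl_T 1 P k, ← S0_tl_add]
  congr 1
  unfold uu
  ring

theorem S0_mo_uu (hMO : St_MO) (P : LaurentPolynomial ℤ) : mo 0 (uu * P) = 0 := by
  have h1 : uu * P + P = T 1 * P := by
    unfold uu
    ring
  have h2 := hMO.1 0 (uu * P) P
  rw [h1, S0_mo_T hMO] at h2
  linarith

end Pool.ALT
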